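import Mathlib
import Pool.Agent.H111N.Moment

set_option autoImplicit false

/-!
# Dense cores of graphs with large chromatic number, and the first moment
-/

namespace Pool.Agent.H111G

open Finset Pool.Agent.H111N

open Classical in
/-- A graph that is not `r`-colourable has a nonempty vertex set in which all degrees are at
least `r`. -/
theorem exists_core {V : Type} [Fintype V] (G : SimpleGraph V) (r : ℕ) (h : ¬ G.Colorable r) :
    ∃ W : Finset V, W.Nonempty ∧ ∀ v ∈ W, r ≤ (W.filter (fun u => G.Adj v u)).card := by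
  by_contra hcon
  push Not at hcon
  apply h
  have key : ∀ n : ℕ, ∀ W : Finset V, W.card = n →
      ∃ f : V → ℕ, (∀ v ∈ W, f v < r) ∧ ∀ u ∈ W, ∀ v ∈ W, G.Adj u v → f u ≠ f v := by
    intro n
    induction n with
    | zero =>
      intro W hW
      rw [Finset.card_eq_zero] at hW
      subst hW
      exact ⟨fun _ => 0, by simp, by simp⟩
    | succ n ih =>
      intro W hW
      have hne : W.Nonempty := by rw [← Finset.card_pos]; omega
      obtain ⟨v, hv, hdeg⟩ := hcon W hne
      obtain ⟨f, hf1, hf2⟩ := ih (W.erase v) (by rw [Finset.card_erase_of_mem hv]; omega)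
      have hex : ∃ c ∈ Finset.range r, c ∉ (W.filter (fun u => G.Adj v u)).image f := by
        by_contra hno
        push Not at hno
        have h1 : Finset.range r ⊆ (W.filter (fun u => G.Adj v u)).image f := fun c hc => hno c hc
        have h2 := Finset.card_le_card h1
        rw [Finset.card_range] at h2
        have h3 := Finset.card_image_le (s := W.filter (fun u => G.Adj v u)) (f := f)
        omega
      obtain ⟨c, hc, hcn⟩ := hex
      rw [Finset.mem_range] at hc
      refine ⟨Function.update f v c, ?_, ?_⟩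
      · intro u hu
        by_cases huv : u = v
        · subst huv; rw [Function.update_self]; exact hc
        · rw [Function.update_of_ne huv]
          exact hf1 u (Finset.mem_erase.mpr ⟨huv, hu⟩)
      · intro u hu w hw huw
        by_cases h1 : u = v
        · subst h1
          have h2 : w ≠ u := (G.ne_of_adj huw).symm
          rw [Function.update_self, Function.update_of_ne h2]
          intro h3
          apply hcn
          rw [Finset.mem_image]
          exact ⟨w, Finset.mem_filter.mpr ⟨hw, huw⟩, h3.symm⟩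
        · by_cases h2 : w = v
          · subst h2
            rw [Function.update_self, Function.update_of_ne h1]
            intro h3
            apply hcn
            rw [Finset.mem_image]
            exact ⟨u, Finset.mem_filter.mpr ⟨hu, huw.symm⟩, h3⟩
          · rw [Function.update_of_ne h1, Function.update_of_ne h2]
            exact hf2 u (Finset.mem_erase.mpr ⟨h1, hu⟩) w (Finset.mem_erase.mpr ⟨h2, hw⟩) huw
  obtain ⟨f, hf1, hf2⟩ := key _ Finset.univ rfl
  exact ⟨SimpleGraph.Coloring.mk (fun v => (⟨f v, hf1 v (Finset.mem_univ v)⟩ : Fin r))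
    (fun {u v} huv heq => hf2 u (Finset.mem_univ u) v (Finset.mem_univ v) huv
      (by simpa using heq))⟩

theorem cyl_half {E : Type*} [Fintype E] [DecidableEq E] (F : Finset E) (b : Bool) :
    ∑ c : E → Bool, (∏ _e : E, (1 / 2 : ℝ)) * (if ∀ e ∈ F, c e = b then 1 else 0) =
      (1 / 2 : ℝ) ^ F.card := by
  classical
  have h1 : ∀ c : E → Bool, (∏ _e : E, (1 / 2 : ℝ)) * (if ∀ e ∈ F, c e = b then (1:ℝ) else 0) =
      ∏ e, ((1 / 2 : ℝ) * (if e ∈ F → c e = b then 1 else 0)) := by
    intro c
    rw [Finset.prod_mul_distrib]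
    congr 1
    rw [Finset.prod_boole]
    simp
  simp_rw [h1]
  rw [sum_prod_bool (fun e x => (1 / 2 : ℝ) * (if e ∈ F → x = b then (1:ℝ) else 0))]
  rw [← Finset.prod_subset (Finset.subset_univ F)]
  · rw [Finset.prod_congr rfl (g := fun _ => (1 / 2 : ℝ))]
    · rw [Finset.prod_const]
    · intro e he
      cases b <;> simp [he]
  · intro e _ he
    simp [he]
    norm_num

/-- the graph of the edges of colour `true` -/
def trueGraph {n : ℕ} (c : Sym2 (Fin n) → Bool) : SimpleGraph (Fin n) where
  Adj x y := x ≠ y ∧ c s(x, y) = true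
  symm := ⟨fun x y h => ⟨h.1.symm, by rw [Sym2.eq_swap]; exact h.2⟩⟩
  loopless := ⟨fun x h => h.1 rfl⟩

open Classical in
/-- **First moment.** If `2 n ^ |U| < 2 ^ e(F)` then some graph on `n` vertices contains no copy of
`F` and neither does its complement. -/
theorem first_moment {U : Type} [Fintype U] (F : SimpleGraph U) (n : ℕ)
    (h : 2 * n ^ Fintype.card U < 2 ^ F.edgeFinset.card) :
    ∃ H : SimpleGraph (Fin n), ¬ F.IsContained H ∧ ¬ F.IsContained Hᶜ := by
  by_contra hcon'
  have hcon : ∀ H : SimpleGraph (Fin n), ¬ F.IsContained H → F.IsContained Hᶜ := by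
    intro H hH
    by_contra h'
    exact hcon' ⟨H, hH, h'⟩
  -- every colouring contains a monochromatic copy
  have h1 : ∀ c : Sym2 (Fin n) → Bool, ∃ φ : U → Fin n, ∃ b : Bool, Function.Injective φ ∧
      ∀ e ∈ F.edgeFinset, c (Sym2.map φ e) = b := by
    intro c
    by_cases h2 : F.IsContained (trueGraph c)
    · obtain ⟨f⟩ := h2
      refine ⟨f, true, f.injective, ?_⟩
      intro e he
      induction e using Sym2.ind with
      | _ x y =>
        rw [SimpleGraph.mem_edgeFinset, SimpleGraph.mem_edgeSet] at he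
        have h3 : (trueGraph c).Adj (f x) (f y) := f.toHom.map_adj he
        rw [Sym2.map_mk]
        exact h3.2
    · obtain ⟨f⟩ := hcon _ h2
      refine ⟨f, false, f.injective, ?_⟩
      intro e he
      induction e using Sym2.ind with
      | _ x y =>
        rw [SimpleGraph.mem_edgeFinset, SimpleGraph.mem_edgeSet] at he
        have h3 : (trueGraph c)ᶜ.Adj (f x) (f y) := f.toHom.map_adj he
        rw [SimpleGraph.compl_adj] at h3
        rw [Sym2.map_mk]
        by_contra h4
        rw [Bool.not_eq_false] at h4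
        exact h3.2 ⟨h3.1, h4⟩
  set P : ℝ := ∏ _e : Sym2 (Fin n), (1 / 2 : ℝ) with hP
  have hP0 : 0 ≤ P := Finset.prod_nonneg fun _ _ => by norm_num
  have htotal : ∑ _c : Sym2 (Fin n) → Bool, P = 1 := by
    have h0 := cyl_half (∅ : Finset (Sym2 (Fin n))) true
    rw [Finset.card_empty, pow_zero] at h0
    rw [← h0]
    apply Finset.sum_congr rfl
    intro c _
    rw [if_pos (by simp), mul_one]
  set Inj : Finset (U → Fin n) := univ.filter (fun φ => Function.Injective φ) with hInj
  have h5 : ∀ c : Sym2 (Fin n) → Bool, P ≤ ∑ φ ∈ Inj, ∑ b : Bool,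
      P * (if ∀ e ∈ F.edgeFinset.image (Sym2.map φ), c e = b then 1 else 0) := by
    intro c
    obtain ⟨φ, b, hφ, hall⟩ := h1 c
    have h6 : P = P * (if ∀ e ∈ F.edgeFinset.image (Sym2.map φ), c e = b then 1 else 0) := by
      rw [if_pos, mul_one]
      intro e he
      obtain ⟨e', he', rfl⟩ := Finset.mem_image.mp he
      exact hall e' he'
    have hnn : ∀ (φ : U → Fin n) (b : Bool),
        0 ≤ P * (if ∀ e ∈ F.edgeFinset.image (Sym2.map φ), c e = b then (1:ℝ) else 0) := by
      intro φ b
      apply mul_nonneg hP0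
      split_ifs <;> norm_num
    calc P = P * (if ∀ e ∈ F.edgeFinset.image (Sym2.map φ), c e = b then 1 else 0) := h6
      _ ≤ ∑ b : Bool, P * (if ∀ e ∈ F.edgeFinset.image (Sym2.map φ), c e = b then 1 else 0) :=
          Finset.single_le_sum (f := fun b : Bool =>
            P * (if ∀ e ∈ F.edgeFinset.image (Sym2.map φ), c e = b then (1:ℝ) else 0))
            (fun b _ => hnn φ b) (Finset.mem_univ b)
      _ ≤ _ := Finset.single_le_sum (f := fun φ : U → Fin n => ∑ b : Bool,
            P * (if ∀ e ∈ F.edgeFinset.image (Sym2.map φ), c e = b then (1:ℝ) else 0))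
            (fun φ _ => Finset.sum_nonneg fun b _ => hnn φ b)
            (Finset.mem_filter.mpr ⟨Finset.mem_univ φ, hφ⟩)
  have h7 : (1:ℝ) ≤ ∑ φ ∈ Inj, ∑ b : Bool, (1 / 2 : ℝ) ^ F.edgeFinset.card := by
    calc (1:ℝ) = ∑ _c : Sym2 (Fin n) → Bool, P := htotal.symm
      _ ≤ ∑ c : Sym2 (Fin n) → Bool, ∑ φ ∈ Inj, ∑ b : Bool,
          P * (if ∀ e ∈ F.edgeFinset.image (Sym2.map φ), c e = b then 1 else 0) :=
          Finset.sum_le_sum fun c _ => h5 c
      _ = ∑ φ ∈ Inj, ∑ b : Bool, ∑ c : Sym2 (Fin n) → Bool,
          P * (if ∀ e ∈ F.edgeFinset.image (Sym2.map φ), c e = b then 1 else 0) := by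
          rw [Finset.sum_comm]
          apply Finset.sum_congr rfl
          intro φ _
          rw [Finset.sum_comm]
      _ = ∑ φ ∈ Inj, ∑ b : Bool, (1 / 2 : ℝ) ^ F.edgeFinset.card := by
          apply Finset.sum_congr rfl
          intro φ hφ
          apply Finset.sum_congr rfl
          intro b _
          rw [hP, cyl_half]
          congr 1
          have hinj : Function.Injective φ := (Finset.mem_filter.mp hφ).2
          exact Finset.card_image_of_injective _ (Sym2.map.injective hinj)
  have h8 : ∑ φ ∈ Inj, ∑ b : Bool, (1 / 2 : ℝ) ^ F.edgeFinset.card ≤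
      (n : ℝ) ^ Fintype.card U * (2 * (1 / 2 : ℝ) ^ F.edgeFinset.card) := by
    rw [Finset.sum_const, Finset.sum_const, nsmul_eq_mul, nsmul_eq_mul]
    have h9 : (Inj.card : ℝ) ≤ (n : ℝ) ^ Fintype.card U := by
      have h10 : Inj.card ≤ (univ : Finset (U → Fin n)).card := Finset.card_le_card (Finset.filter_subset _ _)
      rw [Finset.card_univ, Fintype.card_fun, Fintype.card_fin] at h10
      exact_mod_cast h10
    have h11 : ((univ : Finset Bool).card : ℝ) = 2 := by simp
    rw [h11]
    exact mul_le_mul_of_nonneg_right h9 (by positivity)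
  have h12 : (2 : ℝ) * (n : ℝ) ^ Fintype.card U < 2 ^ F.edgeFinset.card := by exact_mod_cast h
  have h13 : (1 / 2 : ℝ) ^ F.edgeFinset.card * 2 ^ F.edgeFinset.card = 1 := by
    rw [← mul_pow]; norm_num
  have h14 : (0:ℝ) < (1 / 2 : ℝ) ^ F.edgeFinset.card := by positivity
  have h15 := mul_lt_mul_of_pos_right h12 h14
  nlinarith

end Pool.Agent.H111G
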