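import Mathlib
import Pool.Agent.H818R2.Ram.Ratio

set_option autoImplicit false

/-!
# Ramsey numbers of graphs: definitions
-/

namespace Pool.Agent.H111G

open Finset

/-- Every red/blue colouring of the edges of the complete graph on `n` vertices (the edges of `H`
are red, the edges of its complement are blue) contains a monochromatic copy of `G`, a subgraph
isomorphic to `G` whose edges all have the same colour. -/
def Forces {V : Type} (G : SimpleGraph V) (n : ℕ) : Prop :=
  ∀ H : SimpleGraph (Fin n), G.IsContained H ∨ G.IsContained Hᶜ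

/-- The Ramsey number `R(G)`: the least `n` with `Forces G n`. -/
noncomputable def ram {V : Type} (G : SimpleGraph V) : ℕ := sInf {n : ℕ | Forces G n}

/-- `R(k) = R(K_k)`. -/
noncomputable def R (k : ℕ) : ℕ := ram (⊤ : SimpleGraph (Fin k))

open Classical in
/-- The number of neighbours of `v` in `W`. -/
noncomputable def degIn {V : Type} (G : SimpleGraph V) (W : Finset V) (v : V) : ℕ :=
  (W.filter (fun u => G.Adj v u)).card

theorem top_of_clique {n k : ℕ} {H : SimpleGraph (Fin n)} {s : Finset (Fin n)}
    (h : H.IsNClique k s) : (⊤ : SimpleGraph (Fin k)).IsContained H := by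
  have h1 : ¬ H.CliqueFree k := fun hc => hc s h
  rw [SimpleGraph.not_cliqueFree_iff_top_isContained] at h1
  exact h1

theorem clique_of_top {n k : ℕ} {H : SimpleGraph (Fin n)}
    (h : (⊤ : SimpleGraph (Fin k)).IsContained H) : ∃ s : Finset (Fin n), H.IsNClique k s := by
  have h1 : ¬ H.CliqueFree k := by
    rw [SimpleGraph.not_cliqueFree_iff_top_isContained]
    exact h
  unfold SimpleGraph.CliqueFree at h1
  push Not at h1
  exact h1

theorem forces_top_iff (n k : ℕ) :
    Forces (⊤ : SimpleGraph (Fin k)) n ↔ H818R2.Ram.Arrows n k k := by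
  constructor
  · intro h H
    rcases h H with h1 | h1
    · exact Or.inl (clique_of_top h1)
    · exact Or.inr (clique_of_top h1)
  · intro h H
    rcases h H with ⟨s, hs⟩ | ⟨s, hs⟩
    · exact Or.inl (top_of_clique hs)
    · exact Or.inr (top_of_clique hs)

theorem R_eq (k : ℕ) : R k = H818R2.Ram.R k k := by
  unfold R ram H818R2.Ram.R
  congr 1
  ext n
  exact forces_top_iff n k

theorem contained_top {V : Type} [Fintype V] (G : SimpleGraph V) {k : ℕ}
    (h : Fintype.card V ≤ k) : G.IsContained (⊤ : SimpleGraph (Fin k)) := by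
  have f : V ↪ Fin k :=
    (Fintype.equivFin V).toEmbedding.trans (Fin.castLEEmb h)
  refine ⟨⟨⟨f, ?_⟩, f.injective⟩⟩
  intro a b hab
  rw [SimpleGraph.top_adj]
  exact fun he => G.ne_of_adj hab (f.injective he)

theorem forces_mono {V U : Type} {G : SimpleGraph V} {F : SimpleGraph U} (h : F.IsContained G)
    {n : ℕ} (hn : Forces G n) : Forces F n := by
  intro H
  rcases hn H with h1 | h1
  · exact Or.inl (h.trans h1)
  · exact Or.inr (h.trans h1)

theorem nonempty {V : Type} [Fintype V] (G : SimpleGraph V) : {n : ℕ | Forces G n}.Nonempty :=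
  ⟨_, forces_mono (contained_top G le_rfl)
    ((forces_top_iff _ _).mpr (H818R2.Ram.arrows_R (Fintype.card V) (Fintype.card V)))⟩

theorem ram_isLeast {V : Type} [Fintype V] (G : SimpleGraph V) :
    IsLeast {n : ℕ | Forces G n} (ram G) :=
  ⟨Nat.sInf_mem (nonempty G), fun _ hn => Nat.sInf_le hn⟩

theorem ram_mono {V U : Type} [Fintype V] [Fintype U] {G : SimpleGraph V} {F : SimpleGraph U}
    (h : F.IsContained G) : ram F ≤ ram G :=
  (ram_isLeast F).2 (forces_mono h (ram_isLeast G).1)

end Pool.Agent.H111G
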